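import Pool.Agent.JT78.Multi

/-!
# The Jackson-Thomassen question for semicomplete multipartite digraphs

For every `k ≥ 1` there is `f` such that every `f`-strong semicomplete multipartite digraph has a
spanning `k`-strong oriented subgraph.
-/

namespace Pool.Agent.Results.MP_3f5aac_co.SemicompleteMultipartite

open Pool.Agent.JT78

universe u

/-- `D` is a semicomplete multipartite digraph: its vertex set is partitioned into independent
sets (the classes of `c`), and any two vertices in different classes are adjacent (joined by an
arc in at least one of the two directions). -/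
def IsSemicompleteMultipartite {V : Type u} (D : V → V → Prop) : Prop :=
  ∃ c : V → ℕ, ∀ u v, (D u v ∨ D v u) ↔ c u ≠ c v

theorem result : ∀ k : ℕ, 1 ≤ k → ∃ f : ℕ, ∀ (V : Type u) [Fintype V] (D : V → V → Prop),
    IsSemicompleteMultipartite D → KStrong f D →
    ∃ H : V → V → Prop, SpanningOriented D H ∧ KStrong k H := by
  intro k hk
  obtain ⟨f, hf⟩ := jt_multi.{u} k hk
  exact ⟨f, fun V _ D hD hK => hf V D hK hD⟩

end Pool.Agent.Results.MP_3f5aac_co.SemicompleteMultipartite
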