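import Pool.Agent.JT78.Indep

/-!
# The Jackson-Thomassen question for bounded independence number plus a sparse part

For all `k ≥ 1`, `α` and `s` there is `f` such that every `f`-strong digraph `D` whose vertex set
is the union of a set `W` with independence number at most `α` and a sparse set (for instance an
independent set, or a set inducing an acyclic or an `s`-degenerate digraph) has a spanning
`k`-strong oriented subgraph. With `W = V`: digraphs of bounded independence number; with `α = 1`,
`s = 0`: split digraphs.
-/

namespace Pool.Agent.Results.MP_3f5aac_co.SparseAndBoundedIndependence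

open Pool.Agent.JT78

universe u

theorem result : ∀ k α s : ℕ, 1 ≤ k → ∃ f : ℕ, ∀ (V : Type u) [Fintype V] (D : V → V → Prop)
    (W : Set V), Loopless D → KStrong f D →
    (∀ S : Finset V, (∀ u ∈ S, u ∈ W) → (∀ u ∈ S, ∀ v ∈ S, u ≠ v → ¬ D u v) → S.card ≤ α) →
    Sparse s D Wᶜ →
    ∃ H : V → V → Prop, SpanningOriented D H ∧ KStrong k H :=
  fun k α s hk => jt_mixed k α s hk

end Pool.Agent.Results.MP_3f5aac_co.SparseAndBoundedIndependence
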