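import Pool.Agent.JT78.Dense

/-!
# The Jackson-Thomassen question for a dense part plus a sparse part

For all `k`, `s` and `ε > 0` there is `f` such that every `f`-strong digraph `D` whose vertex set
is the union of a set `W` in which every vertex has at least `ε |W|` in-neighbours and at least
`ε |W|` out-neighbours and of a sparse set has a spanning `k`-strong oriented subgraph. With
`W = V`: digraphs of minimum semidegree at least `ε |V|`.
-/

namespace Pool.Agent.Results.MP_3f5aac_co.SparseAndDense

open Pool.Agent.JT78

universe u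

theorem result : ∀ (k s : ℕ) (ε : ℝ), 1 ≤ k → 0 < ε → ∃ f : ℕ, ∀ (V : Type u) [Fintype V]
    (D : V → V → Prop) (W : Set V), Loopless D → KStrong f D →
    (∀ v ∈ W, ε * W.ncard ≤ ({u | u ∈ W ∧ D u v} : Set V).ncard ∧
      ε * W.ncard ≤ ({u | u ∈ W ∧ D v u} : Set V).ncard) →
    Sparse s D Wᶜ →
    ∃ H : V → V → Prop, SpanningOriented D H ∧ KStrong k H :=
  fun k s _ _ hε => jt_dense k s hε

end Pool.Agent.Results.MP_3f5aac_co.SparseAndDense
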