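import Pool.Agent.JT71.Main

/-!
# The Jackson-Thomassen question for k = 2

Every 287-strong digraph has a spanning subdigraph that is a 2-strong oriented graph.
-/

namespace Pool.Agent.Results.MP_3f5aac_co.TwoStrong

open Pool.Agent.JT78

universe u

theorem result : ∀ (V : Type u) [Fintype V] (D : V → V → Prop), KStrong 287 D →
    ∃ H : V → V → Prop, SpanningOriented D H ∧ KStrong 2 H :=
  fun V _ D hD => Pool.Agent.JT71.two_strong V D hD

end Pool.Agent.Results.MP_3f5aac_co.TwoStrong
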